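import Mathlib
import Pool.Agent.H54.G.Helper259.AbsHt

set_option autoImplicit false

/-!
# The absolute height is bounded by the height defined through the Mahler measure
-/

namespace Pool.Agent.H58W

open Polynomial NumberField Height Module
open Pool.Agent.Helper259.AbsHt Pool.Agent.Helper259.HtPoly

/-- the set of the denominators of the minimal polynomial -/
def dens (β : Qbar) : Set ℕ :=
  {n : ℕ | 0 < n ∧ ∀ i : ℕ, ((n : ℚ) * (minpoly ℚ β).coeff i).den = 1}

/-- the height defined through the Mahler measure of the primitive minimal polynomial -/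
noncomputable def hM (β : Qbar) : ℝ :=
  Real.log (((sInf (dens β) : ℕ) : ℝ) *
    (Polynomial.map (algebraMap ℚ ℂ) (minpoly ℚ β)).mahlerMeasure) /
    ((minpoly ℚ β).natDegree : ℝ)

lemma isInt (β : Qbar) : IsIntegral ℚ β :=
  ((AlgebraicClosure.isAlgebraic ℚ).isAlgebraic β).isIntegral

lemma dens_nonempty (β : Qbar) : (dens β).Nonempty := by
  obtain ⟨b, hbm, hb⟩ := IsLocalization.integerNormalization_spec
    (nonZeroDivisors ℤ) (minpoly ℚ β)
  have hb' : ∀ i, ((IsLocalization.integerNormalization (nonZeroDivisors ℤ)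
      (minpoly ℚ β)).coeff i : ℚ) = (b : ℤ) * (minpoly ℚ β).coeff i := by
    intro i
    have := congrArg (fun p => p.coeff i) hb
    simp only [coeff_map, eq_intCast] at this
    rw [this, coeff_smul, zsmul_eq_mul]
  have hb0 : (b : ℤ) ≠ 0 := nonZeroDivisors.ne_zero hbm
  refine ⟨(b : ℤ).natAbs, Int.natAbs_pos.mpr hb0, fun i => ?_⟩
  rcases Int.natAbs_eq (b : ℤ) with h | h
  · have h2 : (((b : ℤ).natAbs : ℚ)) = ((b : ℤ) : ℚ) := by
      rw [← Int.cast_natCast, ← h]
    rw [h2, ← hb' i]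
    exact Rat.den_intCast _
  · have h2 : (((b : ℤ).natAbs : ℚ)) = -((b : ℤ) : ℚ) := by
      have : ((b : ℤ).natAbs : ℤ) = -(b : ℤ) := by omega
      rw [← Int.cast_natCast, this, Int.cast_neg]
    rw [h2, neg_mul, ← hb' i, ← Int.cast_neg]
    exact Rat.den_intCast _

lemma sInf_mem (β : Qbar) : sInf (dens β) ∈ dens β := Nat.sInf_mem (dens_nonempty β)

lemma one_le_mm (β : Qbar) :
    1 ≤ (Polynomial.map (algebraMap ℚ ℂ) (minpoly ℚ β)).mahlerMeasure := by
  apply one_le_mahlerMeasure_of_one_le_norm_leadingCoeff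
  rw [((minpoly.monic (isInt β)).map _).leadingCoeff]
  simp

lemma hM_nonneg (β : Qbar) : 0 ≤ hM β := by
  apply div_nonneg _ (Nat.cast_nonneg _)
  apply Real.log_nonneg
  have h1 : (1 : ℝ) ≤ (sInf (dens β) : ℕ) := by exact_mod_cast (sInf_mem β).1
  nlinarith [one_le_mm β]

/-- the primitive integral coefficient vector -/
noncomputable def cvec (β : Qbar) (i : ℕ) : ℤ :=
  (((sInf (dens β) : ℕ) : ℚ) * (minpoly ℚ β).coeff i).num

lemma cvec_eq (β : Qbar) (i : ℕ) :
    (cvec β i : ℚ) = ((sInf (dens β) : ℕ) : ℚ) * (minpoly ℚ β).coeff i := by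
  have := (sInf_mem β).2 i
  unfold cvec
  conv_rhs => rw [← Rat.num_div_den (((sInf (dens β) : ℕ) : ℚ) * (minpoly ℚ β).coeff i)]
  rw [this]
  simp

lemma cvec_deg (β : Qbar) : cvec β (minpoly ℚ β).natDegree = (sInf (dens β) : ℕ) := by
  have := cvec_eq β (minpoly ℚ β).natDegree
  rw [(minpoly.monic (isInt β)).coeff_natDegree, mul_one] at this
  exact_mod_cast this

lemma cvec_gcd (β : Qbar) (D : ℕ) (hD : (minpoly ℚ β).natDegree ≤ D) :
    Finset.univ.gcd (fun i : Fin (D + 1) => cvec β i) = 1 := by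
  set g := Finset.univ.gcd (fun i : Fin (D + 1) => cvec β i) with hg
  have hdvd : ∀ i : Fin (D + 1), g ∣ cvec β i := fun i => Finset.gcd_dvd (Finset.mem_univ i)
  have hn0 : 0 < sInf (dens β) := (sInf_mem β).1
  have hg1 : g ∣ ((sInf (dens β) : ℕ) : ℤ) := by
    have := hdvd ⟨(minpoly ℚ β).natDegree, by omega⟩
    simp only at this
    rwa [cvec_deg] at this
  -- write `n₀ = g' * m`
  have hg0 : g ≠ 0 := by
    intro h
    rw [h, zero_dvd_iff] at hg1
    omega
  have hgn : normalize g = g := by rw [hg]; exact Finset.normalize_gcd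
  have hgnn : 0 ≤ g := Int.nonneg_of_normalize_eq_self hgn
  obtain ⟨m, hm⟩ := hg1
  have hmpos : 0 < m := by
    by_contra hcon
    push Not at hcon
    have : ((sInf (dens β) : ℕ) : ℤ) ≤ 0 := by
      rw [hm]
      exact mul_nonpos_of_nonneg_of_nonpos hgnn hcon
    omega
  have hmem : m.toNat ∈ dens β := by
    refine ⟨by omega, fun i => ?_⟩
    have hmq : ((m.toNat : ℕ) : ℚ) = (m : ℚ) := by
      rw [← Int.cast_natCast, Int.toNat_of_nonneg hmpos.le]
    have hgc : g ∣ cvec β i := by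
      by_cases hi : i < D + 1
      · exact hdvd ⟨i, hi⟩
      · have : (minpoly ℚ β).coeff i = 0 := coeff_eq_zero_of_natDegree_lt (by omega)
        have h2 := cvec_eq β i
        rw [this, mul_zero] at h2
        have h3 : cvec β i = 0 := by exact_mod_cast h2
        rw [h3]
        exact dvd_zero _
    obtain ⟨c, hc⟩ := hgc
    have h2 := cvec_eq β i
    rw [hc] at h2
    have h4 : ((sInf (dens β) : ℕ) : ℚ) = (g : ℚ) * (m : ℚ) := by
      rw [← Int.cast_natCast, hm, Int.cast_mul]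
    rw [h4, Int.cast_mul, mul_assoc] at h2
    have hgq : (g : ℚ) ≠ 0 := by exact_mod_cast hg0
    have h5 := mul_left_cancel₀ hgq h2
    rw [hmq, ← h5]
    exact Rat.den_intCast _
  have hle : sInf (dens β) ≤ m.toNat := Nat.sInf_le hmem
  have hle' : ((sInf (dens β) : ℕ) : ℤ) ≤ m := by omega
  rw [hm] at hle'
  have : g ≤ 1 := by
    by_contra hcon
    push Not at hcon
    nlinarith
  omega

/-- The absolute height is bounded by the Mahler height. -/
theorem absLogHeight_le_hM (D : ℕ) : ∃ A : ℝ, ∀ γ : Qbar, (minpoly ℚ γ).natDegree ≤ D →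
    absLogHeight ![1, γ] ≤ A + D * hM γ := by
  obtain ⟨C, hC⟩ := absLogHeight_root D
  refine ⟨C + D * Real.log 2, fun γ hD => ?_⟩
  have hmon := minpoly.monic (isInt γ)
  have h1 := hC ((minpoly ℚ γ).map (algebraMap ℚ Qbar)) γ (hmon.map _).ne_zero
    (by rw [hmon.natDegree_map]; exact hD)
    (by rw [eval_map_algebraMap, minpoly.aeval])
  have hn0 : 0 < sInf (dens γ) := (sInf_mem γ).1
  have e1 : (((sInf (dens γ) : ℕ) : Qbar) • cv D ((minpoly ℚ γ).map (algebraMap ℚ Qbar))) =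
      fun i : Fin (D + 1) => (cvec γ i : Qbar) := by
    funext i
    have h2 := congrArg (algebraMap ℚ Qbar) (cvec_eq γ i)
    simp only [map_intCast, map_mul, map_natCast] at h2
    rw [h2]
    simp [cv]
  have e2 : absLogHeight (cv D ((minpoly ℚ γ).map (algebraMap ℚ Qbar))) =
      Real.log ((⨆ i : Fin (D + 1), |cvec γ i| : ℤ) : ℝ) := by
    rw [← absLogHeight_smul _ (c := ((sInf (dens γ) : ℕ) : Qbar))
      (by exact_mod_cast hn0.ne'), e1]
    exact absLogHeight_int _ (cvec_gcd γ D hD)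
  obtain ⟨i, hi⟩ := exists_eq_ciSup_of_finite (f := fun i : Fin (D + 1) => |cvec γ i|)
  have hpos : 0 < |cvec γ i| := by
    have h3 : |cvec γ (minpoly ℚ γ).natDegree| ≤ ⨆ i : Fin (D + 1), |cvec γ i| :=
      Finite.le_ciSup (fun i : Fin (D + 1) => |cvec γ i|) ⟨(minpoly ℚ γ).natDegree, by omega⟩
    rw [← hi, cvec_deg] at h3
    have : (0 : ℤ) < |((sInf (dens γ) : ℕ) : ℤ)| := abs_pos.mpr (by exact_mod_cast hn0.ne')
    omega
  have hmm := one_le_mm γ
  have hbound : ((|cvec γ i| : ℤ) : ℝ) ≤ 2 ^ D * (((sInf (dens γ) : ℕ) : ℝ) *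
      (Polynomial.map (algebraMap ℚ ℂ) (minpoly ℚ γ)).mahlerMeasure) := by
    have h4 : ((|cvec γ i| : ℤ) : ℝ) = ((sInf (dens γ) : ℕ) : ℝ) *
        ‖((minpoly ℚ γ).map (algebraMap ℚ ℂ)).coeff i‖ := by
      have h5 := congrArg (algebraMap ℚ ℂ) (cvec_eq γ i)
      simp only [map_intCast, map_mul, map_natCast] at h5
      have h6 := congrArg norm h5
      rw [norm_mul, Complex.norm_natCast, Complex.norm_intCast] at h6
      rw [coeff_map, Int.cast_abs]
      exact h6
    rw [h4]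
    have h7 := norm_coeff_le_choose_mul_mahlerMeasure (i : ℕ)
      ((minpoly ℚ γ).map (algebraMap ℚ ℂ))
    have h8 : ((((minpoly ℚ γ).map (algebraMap ℚ ℂ)).natDegree.choose i : ℕ) : ℝ) ≤ 2 ^ D := by
      rw [hmon.natDegree_map]
      have : (minpoly ℚ γ).natDegree.choose i ≤ 2 ^ D :=
        (Nat.choose_le_two_pow _ _).trans (Nat.pow_le_pow_right (by norm_num) hD)
      exact_mod_cast this
    have h9 : ‖((minpoly ℚ γ).map (algebraMap ℚ ℂ)).coeff i‖ ≤
        2 ^ D * (Polynomial.map (algebraMap ℚ ℂ) (minpoly ℚ γ)).mahlerMeasure :=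
      h7.trans (mul_le_mul_of_nonneg_right h8 (by linarith))
    calc _ ≤ ((sInf (dens γ) : ℕ) : ℝ) * (2 ^ D *
          (Polynomial.map (algebraMap ℚ ℂ) (minpoly ℚ γ)).mahlerMeasure) :=
          mul_le_mul_of_nonneg_left h9 (Nat.cast_nonneg _)
      _ = _ := by ring
  have hdeg0 : 0 < (minpoly ℚ γ).natDegree := minpoly.natDegree_pos (isInt γ)
  have hprod : (1 : ℝ) ≤ ((sInf (dens γ) : ℕ) : ℝ) *
      (Polynomial.map (algebraMap ℚ ℂ) (minpoly ℚ γ)).mahlerMeasure := by
    have h1 : (1 : ℝ) ≤ (sInf (dens γ) : ℕ) := by exact_mod_cast (sInf_mem γ).1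
    nlinarith
  have hlog : Real.log ((|cvec γ i| : ℤ) : ℝ) ≤ D * Real.log 2 + D * hM γ := by
    have h10 := Real.log_le_log (by exact_mod_cast hpos) hbound
    rw [Real.log_mul (by positivity) (by linarith), Real.log_pow] at h10
    have h11 : Real.log (((sInf (dens γ) : ℕ) : ℝ) *
      (Polynomial.map (algebraMap ℚ ℂ) (minpoly ℚ γ)).mahlerMeasure) =
        (minpoly ℚ γ).natDegree * hM γ := by
      unfold hM
      field_simp
    rw [h11] at h10
    have h12 : ((minpoly ℚ γ).natDegree : ℝ) * hM γ ≤ D * hM γ :=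
      mul_le_mul_of_nonneg_right (by exact_mod_cast hD) (hM_nonneg γ)
    linarith
  rw [e2, ← hi] at h1
  linarith

end Pool.Agent.H58W
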