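import Mathlib
import Pool.Agent.H54.G.Helper259.AbsHt

set_option autoImplicit false

/-!
# Lower bound for the absolute height of the image under a morphism of the projective line
-/

namespace Pool.Agent.H58W

open Polynomial NumberField Height Module
open Pool.Agent.Helper259.AbsHt

/-- the pair of values of the homogenised polynomials -/
noncomputable def hev (P : Qbar[X]) (d : ℕ) (x y : Qbar) : Qbar :=
  ∑ i ∈ Finset.range (d + 1), P.coeff i * x ^ i * y ^ (d - i)

lemma eval_homog (P : Qbar[X]) (d : ℕ) (x : Fin 2 → Qbar) :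
    MvPolynomial.eval x (P.homogenize d) = hev P d (x 0) (x 1) := by
  simp only [homogenize, Finset.Nat.sum_antidiagonal_eq_sum_range_succ_mk,
    MvPolynomial.eval_sum, hev]
  refine Finset.sum_congr rfl fun k hk ↦ ?_
  rw [MvPolynomial.eval_monomial, Finsupp.update_eq_add_single, Finsupp.prod_add_index',
    Finsupp.prod_single_index, Finsupp.prod_single_index]
  · ring
  all_goals simp_all [pow_add]

lemma hev_reflect (P : Qbar[X]) (d : ℕ) (x y : Qbar) :
    hev (P.reflect d) d x y = hev P d y x := by
  unfold hev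
  rw [← Finset.sum_range_reflect]
  refine Finset.sum_congr rfl fun i hi => ?_
  have hi' : i ≤ d := by
    have := Finset.mem_range.mp hi
    omega
  have e1 : d + 1 - 1 - i = d - i := by omega
  rw [e1, coeff_reflect, revAt_le (by omega : d - i ≤ d)]
  have e2 : d - (d - i) = i := by omega
  rw [e2]
  ring

lemma bezout_hom (P Q : Qbar[X]) (d : ℕ) (hP : P.natDegree ≤ d) (hQ : Q.natDegree ≤ d)
    (hco : IsCoprime P Q) :
    ∃ M₀ : ℕ, ∀ M, M₀ ≤ M → ∃ A B : MvPolynomial (Fin 2) Qbar,
      A.IsHomogeneous M ∧ B.IsHomogeneous M ∧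
      ∀ x : Fin 2 → Qbar, MvPolynomial.eval x A * hev P d (x 0) (x 1) +
        MvPolynomial.eval x B * hev Q d (x 0) (x 1) = x 1 ^ (M + d) := by
  obtain ⟨a, b, hab⟩ := hco
  refine ⟨max a.natDegree b.natDegree, fun M hM => ⟨a.homogenize M, b.homogenize M,
    isHomogeneous_homogenize _, isHomogeneous_homogenize _, fun x => ?_⟩⟩
  have ha : a.natDegree ≤ M := (le_max_left _ _).trans hM
  have hb : b.natDegree ≤ M := (le_max_right _ _).trans hM
  rw [← eval_homog, ← eval_homog, ← map_mul, ← map_mul, ← map_add,
    ← homogenize_mul a P ha hP, ← homogenize_mul b Q hb hQ, ← homogenize_add, hab]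
  simp

lemma coprime_reflect (P Q : Qbar[X]) (d : ℕ) (hd : max P.natDegree Q.natDegree = d)
    (hd1 : 1 ≤ d) (hco : IsCoprime P Q) : IsCoprime (P.reflect d) (Q.reflect d) := by
  have hP : P.natDegree ≤ d := hd ▸ le_max_left _ _
  have hQ : Q.natDegree ≤ d := hd ▸ le_max_right _ _
  have hne : P.reflect d ≠ 0 ∨ Q.reflect d ≠ 0 := by
    by_contra hcon
    push Not at hcon
    rw [reflect_eq_zero_iff, reflect_eq_zero_iff] at hcon
    rw [hcon.1, hcon.2] at hd
    simp at hd
    omega
  have key : ∀ z : Qbar, ¬ ((P.reflect d).IsRoot z ∧ (Q.reflect d).IsRoot z) := by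
    rintro z ⟨h1, h2⟩
    have e1 : ∀ R : Qbar[X], R.natDegree ≤ d → (R.reflect d).eval z = hev R d 1 z := by
      intro R hR
      have : (R.reflect d).natDegree ≤ d := by
        rw [natDegree_le_iff_coeff_eq_zero]
        intro n hn
        rw [coeff_reflect, revAt_eq_self_of_lt hn]
        exact coeff_eq_zero_of_natDegree_lt (by omega)
      rw [eval_eq_sum_range' (Nat.lt_succ_of_le this), ← hev_reflect]
      unfold hev
      simp
    rw [IsRoot.def, e1 P hP] at h1
    rw [IsRoot.def, e1 Q hQ] at h2
    by_cases hz : z = 0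
    · subst hz
      have e2 : ∀ R : Qbar[X], hev R d 1 0 = R.coeff d := by
        intro R
        unfold hev
        rw [Finset.sum_range_succ, Finset.sum_eq_zero]
        · simp
        · intro i hi
          have := Finset.mem_range.mp hi
          rw [zero_pow (by omega), mul_zero]
      rw [e2] at h1 h2
      rcases le_total P.natDegree Q.natDegree with h | h
      · rw [max_eq_right h] at hd
        rw [← hd] at h2
        have : Q = 0 := by
          rw [← leadingCoeff_eq_zero]; exact h2
        rw [this] at hd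
        simp at hd
        omega
      · rw [max_eq_left h] at hd
        rw [← hd] at h1
        have : P = 0 := by
          rw [← leadingCoeff_eq_zero]; exact h1
        rw [this] at hd
        simp at hd
        omega
    · have e3 : ∀ R : Qbar[X], R.natDegree ≤ d → hev R d 1 z = z ^ d * R.eval z⁻¹ := by
        intro R hR
        unfold hev
        rw [eval_eq_sum_range' (Nat.lt_succ_of_le hR), Finset.mul_sum]
        refine Finset.sum_congr rfl fun i hi => ?_
        have hi' : i ≤ d := by
          have := Finset.mem_range.mp hi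
          omega
        have : z ^ d = z ^ (d - i) * z ^ i := by
          rw [← pow_add]; congr 1; omega
        rw [this, inv_pow]
        field_simp
        rw [one_pow, mul_one]
      rw [e3 P hP] at h1
      rw [e3 Q hQ] at h2
      have hzd : z ^ d ≠ 0 := pow_ne_zero _ hz
      have h1' := (mul_eq_zero.mp h1).resolve_left hzd
      have h2' := (mul_eq_zero.mp h2).resolve_left hzd
      obtain ⟨a, b, hab⟩ := hco
      have := congrArg (fun R : Qbar[X] => R.eval z⁻¹) hab
      simp [h1', h2'] at this
  rw [Polynomial.isCoprime_iff_aeval_ne_zero_of_isAlgClosed (k := Qbar) (K := Qbar)]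
  intro z
  by_contra hcon
  push Not at hcon
  refine key z ⟨?_, ?_⟩
  · have := hcon.1
    rwa [coe_aeval_eq_eval] at this
  · have := hcon.2
    rwa [coe_aeval_eq_eval] at this

lemma absLogHeight_pow (x : Fin 2 → Qbar) (n : ℕ) :
    absLogHeight (fun i => x i ^ n) = n * absLogHeight x := by
  obtain ⟨L, hL, hmem⟩ := exists_nf (Set.range x) (Set.finite_range x)
  obtain ⟨y, rfl⟩ := lift_vec L x fun i => hmem _ ⟨i, rfl⟩
  have e : (fun i => (y i : Qbar) ^ n) = fun i => (((y ^ n) i : L) : Qbar) := by
    funext i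
    simp
  rw [e, val_eq, val_eq, logHeight_pow]
  ring

/-- Lower bound for heights under a morphism of degree `d` -/
theorem height_lower (P Q : Qbar[X]) (d : ℕ) (hd : max P.natDegree Q.natDegree = d)
    (hd1 : 1 ≤ d) (hco : IsCoprime P Q) :
    ∃ C : ℝ, ∀ x y : Qbar,
      d * absLogHeight ![x, y] ≤ C + absLogHeight ![hev P d x y, hev Q d x y] := by
  have hP : P.natDegree ≤ d := hd ▸ le_max_left _ _
  have hQ : Q.natDegree ≤ d := hd ▸ le_max_right _ _
  have hdegr : ∀ R : Qbar[X], R.natDegree ≤ d → (R.reflect d).natDegree ≤ d := by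
    intro R hR
    rw [natDegree_le_iff_coeff_eq_zero]
    intro n hn
    rw [coeff_reflect, revAt_eq_self_of_lt hn]
    exact coeff_eq_zero_of_natDegree_lt (by omega)
  obtain ⟨M₁, h₁⟩ := bezout_hom P Q d hP hQ hco
  obtain ⟨M₂, h₂⟩ := bezout_hom (P.reflect d) (Q.reflect d) d (hdegr P hP) (hdegr Q hQ)
    (coprime_reflect P Q d hd hd1 hco)
  obtain ⟨A₁, B₁, hA₁, hB₁, e₁⟩ := h₁ (max M₁ M₂) (le_max_left _ _)
  obtain ⟨A₂, B₂, hA₂, hB₂, e₂⟩ := h₂ (max M₁ M₂) (le_max_right _ _)
  set M := max M₁ M₂ with hM
  -- the swapped polynomials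
  let sw : MvPolynomial (Fin 2) Qbar → MvPolynomial (Fin 2) Qbar :=
    MvPolynomial.rename (Equiv.swap (0 : Fin 2) 1)
  let q : Fin 2 × Fin 2 → MvPolynomial (Fin 2) Qbar := fun a =>
    if a.1 = 0 then (if a.2 = 0 then sw A₂ else sw B₂) else (if a.2 = 0 then A₁ else B₁)
  have hq : ∀ a, (q a).IsHomogeneous M := by
    rintro ⟨a, b⟩
    fin_cases a <;> fin_cases b
    · exact MvPolynomial.IsHomogeneous.rename_isHomogeneous hA₂
    · exact MvPolynomial.IsHomogeneous.rename_isHomogeneous hB₂
    · exact hA₁
    · exact hB₁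
  obtain ⟨C, hC⟩ := absLogHeight_eval M q hq
  refine ⟨Real.log 2 + C, fun x y => ?_⟩
  set v : Fin 2 → Qbar := ![x, y] with hv
  set w : Fin 2 → Qbar := ![hev P d x y, hev Q d x y] with hw
  have h3 := absLogHeight_linear (fun a : Fin 2 × Fin 2 => MvPolynomial.eval v (q a)) w
  have e3 : (fun j : Fin 2 => ∑ i, (fun a : Fin 2 × Fin 2 => MvPolynomial.eval v (q a)) (j, i) * w i)
      = fun i => v i ^ (M + d) := by
    funext j
    fin_cases j
    · have := e₂ ![y, x]
      simp only [Matrix.cons_val_zero, Matrix.cons_val_one, hev_reflect] at this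
      have hsw : ∀ R : MvPolynomial (Fin 2) Qbar,
          MvPolynomial.eval v (sw R) = MvPolynomial.eval ![y, x] R := by
        intro R
        simp only [sw, MvPolynomial.eval_rename]
        congr 2
        funext i
        fin_cases i <;> simp [hv]
      simp only [Fin.zero_eta, Fin.isValue, Fin.sum_univ_two, hw, q, if_true, Matrix.cons_val_zero,
        Matrix.cons_val_one, one_ne_zero, if_false, hsw]
      rw [this]
      simp [hv]
    · have := e₁ ![x, y]
      simp only [Matrix.cons_val_zero, Matrix.cons_val_one] at this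
      simp only [Fin.mk_one, Fin.isValue, Fin.sum_univ_two, hw, q, one_ne_zero, if_false, if_true,
        Matrix.cons_val_zero, Matrix.cons_val_one]
      rw [hv, this]
      simp
  rw [e3, absLogHeight_pow] at h3
  have h4 := hC v
  have h5 : (Nat.card (Fin 2) : ℝ) = 2 := by simp
  rw [h5] at h3
  push_cast at h3
  have : ((M : ℝ) + d) * absLogHeight v = M * absLogHeight v + d * absLogHeight v := by ring
  linarith

end Pool.Agent.H58W
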