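import Mathlib
import Pool.Agent.H54.G.H58W.HtMap
import Pool.Agent.H54.G.H58W.HtMahler

set_option autoImplicit false

/-!
# Points of small canonical height have bounded height
-/

namespace Pool.Agent.H58W

open Polynomial NumberField Height Module
open Pool.Agent.Helper259.AbsHt Pool.Agent.Helper259.HtPoly

/-- the homogeneous lift of a rational map -/
noncomputable def lift (P Q : Qbar[X]) (d : ℕ) (z : Qbar × Qbar) : Qbar × Qbar :=
  (hev P d z.1 z.2, hev Q d z.1 z.2)

lemma absLogHeight_pair (x y : Qbar) : absLogHeight ![x, y] = absLogHeight ![1, x / y] := by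
  have hswap : ∀ u v : Qbar, absLogHeight ![u, v] = absLogHeight ![v, u] := by
    intro u v
    apply le_antisymm
    · have := absLogHeight_comp_le ![(1 : Fin 2), 0] ![v, u]
      have e : (![v, u] ∘ ![(1 : Fin 2), 0]) = ![u, v] := by
        funext i; fin_cases i <;> simp
      rwa [e] at this
    · have := absLogHeight_comp_le ![(1 : Fin 2), 0] ![u, v]
      have e : (![u, v] ∘ ![(1 : Fin 2), 0]) = ![v, u] := by
        funext i; fin_cases i <;> simp
      rwa [e] at this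
  by_cases hy : y = 0
  · subst hy
    rw [div_zero]
    by_cases hx : x = 0
    · subst hx
      have e : (![0, 0] : Fin 2 → Qbar) = 0 := by funext i; fin_cases i <;> simp
      rw [e, absLogHeight_zero]
      have := absLogHeight_eq ℚ (algebraMap ℚ Qbar) (![1, 0] : Fin 2 → ℚ)
      have e2 : (fun i => algebraMap ℚ Qbar ((![1, 0] : Fin 2 → ℚ) i)) = ![1, 0] := by
        funext i; fin_cases i <;> simp
      rw [e2] at this
      rw [this]
      have h1 : logHeight (![1, 0] : Fin 2 → ℚ) = 0 := by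
        rw [logHeight_swap, ← logHeight₁_eq_logHeight, logHeight₁_zero]
      rw [h1, zero_div]
    · have e : x • (![1, 0] : Fin 2 → Qbar) = ![x, 0] := by
        funext i; fin_cases i <;> simp
      rw [← e, absLogHeight_smul _ hx]
  · have e : y • (![1, x / y] : Fin 2 → Qbar) = ![y, x] := by
      funext i
      fin_cases i
      · simp
      · simp [mul_div_cancel₀ x hy]
    rw [hswap x y, ← e, absLogHeight_smul _ hy]

lemma hev_mem (E : IntermediateField ℚ Qbar) (P : Qbar[X]) (d : ℕ)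
    (hP : ∀ i, P.coeff i ∈ E) (x y : Qbar) (hx : x ∈ E) (hy : y ∈ E) : hev P d x y ∈ E := by
  unfold hev
  exact sum_mem fun i _ => mul_mem (mul_mem (hP i) (pow_mem hx i)) (pow_mem hy _)

lemma lift_iterate_mem (E : IntermediateField ℚ Qbar) (P Q : Qbar[X]) (d : ℕ)
    (hP : ∀ i, P.coeff i ∈ E) (hQ : ∀ i, Q.coeff i ∈ E) (z : Qbar × Qbar)
    (hz : z.1 ∈ E ∧ z.2 ∈ E) (n : ℕ) :
    ((lift P Q d)^[n] z).1 ∈ E ∧ ((lift P Q d)^[n] z).2 ∈ E := by
  induction n with
  | zero => exact hz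
  | succ n ih =>
    rw [Function.iterate_succ_apply']
    exact ⟨hev_mem E P d hP _ _ ih.1 ih.2, hev_mem E Q d hQ _ _ ih.1 ih.2⟩

lemma iterate_lower (P Q : Qbar[X]) (d : ℕ) (C : ℝ) (hd2 : 2 ≤ d) (hC0 : 0 ≤ C)
    (hC : ∀ x y : Qbar, d * absLogHeight ![x, y] ≤ C + absLogHeight ![hev P d x y, hev Q d x y])
    (z : Qbar × Qbar) (n : ℕ) :
    (d : ℝ) ^ n * absLogHeight ![z.1, z.2] ≤ C * ((d : ℝ) ^ n - 1) +
      absLogHeight ![((lift P Q d)^[n] z).1, ((lift P Q d)^[n] z).2] := by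
  have hd2' : (2 : ℝ) ≤ d := by exact_mod_cast hd2
  induction n with
  | zero => simp
  | succ n ih =>
    rw [Function.iterate_succ_apply']
    set w := (lift P Q d)^[n] z with hw
    have h1 := hC w.1 w.2
    have h2 : absLogHeight ![(lift P Q d w).1, (lift P Q d w).2] =
      absLogHeight ![hev P d w.1 w.2, hev Q d w.1 w.2] := rfl
    rw [h2]
    have h3 := mul_le_mul_of_nonneg_left ih (by linarith : (0 : ℝ) ≤ d)
    calc (d : ℝ) ^ (n + 1) * absLogHeight ![z.1, z.2]
        = d * ((d : ℝ) ^ n * absLogHeight ![z.1, z.2]) := by ring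
      _ ≤ d * (C * ((d : ℝ) ^ n - 1) + absLogHeight ![w.1, w.2]) := h3
      _ = C * ((d : ℝ) ^ (n + 1) - d) + d * absLogHeight ![w.1, w.2] := by ring
      _ ≤ C * ((d : ℝ) ^ (n + 1) - d) + (C + absLogHeight ![hev P d w.1 w.2, hev Q d w.1 w.2]) := by
          linarith
      _ ≤ C * ((d : ℝ) ^ (n + 1) - 1) + absLogHeight ![hev P d w.1 w.2, hev Q d w.1 w.2] := by
          nlinarith

lemma finrank_adjoin_le (N : IntermediateField ℚ Qbar) [FiniteDimensional ℚ N] (α : Qbar)
    (x : Qbar) (hx : x ∈ N ⊔ IntermediateField.adjoin ℚ {α}) :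
    (minpoly ℚ x).natDegree ≤ finrank ℚ N * (minpoly ℚ α).natDegree := by
  have hfin : FiniteDimensional ℚ (IntermediateField.adjoin ℚ {α}) :=
    IntermediateField.adjoin.finiteDimensional (isInt α)
  have h1 : finrank ℚ (N ⊔ IntermediateField.adjoin ℚ {α} : IntermediateField ℚ Qbar) ≤
      finrank ℚ N * finrank ℚ (IntermediateField.adjoin ℚ {α}) :=
    IntermediateField.finrank_sup_le _ _
  rw [IntermediateField.adjoin.finrank (isInt α)] at h1
  refine le_trans ?_ h1
  have h2 : minpoly ℚ x = minpoly ℚ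
      (⟨x, hx⟩ : (N ⊔ IntermediateField.adjoin ℚ {α} : IntermediateField ℚ Qbar)) := by
    rw [← minpoly.algebraMap_eq (algebraMap
      (N ⊔ IntermediateField.adjoin ℚ {α} : IntermediateField ℚ Qbar) Qbar).injective]
    rfl
  rw [h2]
  exact minpoly.natDegree_le _

open Filter Topology in
theorem small_limit_bound (P Q : Qbar[X]) (d : ℕ) (hd : max P.natDegree Q.natDegree = d)
    (hd2 : 2 ≤ d) (hco : IsCoprime P Q) :
    ∃ m : ℕ, ∀ (D : ℕ) (α : Qbar), (minpoly ℚ α).natDegree ≤ D →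
      ∀ L : ℝ, L < 1 →
      Tendsto (fun n : ℕ => hM (((lift P Q d)^[n] (α, 1)).1 / ((lift P Q d)^[n] (α, 1)).2) /
        (d : ℝ) ^ n) atTop (𝓝 L) →
      absLogHeight ![1, α] ≤ m * D + m := by
  obtain ⟨C, hC⟩ := height_lower P Q d hd (by omega) hco
  -- the field of coefficients
  obtain ⟨N, hN, hmem⟩ := exists_nf ((P.coeffs : Set Qbar) ∪ (Q.coeffs : Set Qbar))
    ((Finset.finite_toSet _).union (Finset.finite_toSet _))
  have hP : ∀ i, P.coeff i ∈ N := by
    intro i
    by_cases h : P.coeff i = 0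
    · rw [h]; exact N.zero_mem
    · exact hmem _ (Or.inl (Polynomial.coeff_mem_coeffs h))
  have hQ : ∀ i, Q.coeff i ∈ N := by
    intro i
    by_cases h : Q.coeff i = 0
    · rw [h]; exact N.zero_mem
    · exact hmem _ (Or.inr (Polynomial.coeff_mem_coeffs h))
  have hC' : ∀ x y : Qbar, d * absLogHeight ![x, y] ≤ max C 0 +
      absLogHeight ![hev P d x y, hev Q d x y] := fun x y =>
    (hC x y).trans (by linarith [le_max_left C 0])
  refine ⟨max (finrank ℚ N) ⌈max C 0 + 1⌉₊, fun D α hα L hL hlim => ?_⟩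
  set D' : ℕ := finrank ℚ N * D with hD'
  obtain ⟨A, hA⟩ := absLogHeight_le_hM D'
  have hd2' : (2 : ℝ) ≤ d := by exact_mod_cast hd2
  -- the iterates
  set γ : ℕ → Qbar := fun n => ((lift P Q d)^[n] (α, 1)).1 / ((lift P Q d)^[n] (α, 1)).2 with hγ
  have hγdeg : ∀ n, (minpoly ℚ (γ n)).natDegree ≤ D' := by
    intro n
    have hle : N ≤ N ⊔ IntermediateField.adjoin ℚ {α} := le_sup_left
    have hαm : α ∈ N ⊔ IntermediateField.adjoin ℚ {α} :=
      (le_sup_right : _ ≤ N ⊔ IntermediateField.adjoin ℚ {α})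
        (IntermediateField.mem_adjoin_simple_self ℚ α)
    have h1 := lift_iterate_mem (N ⊔ IntermediateField.adjoin ℚ {α}) P Q d
      (fun i => hle (hP i)) (fun i => hle (hQ i)) (α, 1) ⟨hαm, IntermediateField.one_mem _⟩ n
    have h2 : γ n ∈ N ⊔ IntermediateField.adjoin ℚ {α} :=
      IntermediateField.div_mem _ h1.1 h1.2
    exact (finrank_adjoin_le N α (γ n) h2).trans (Nat.mul_le_mul_left _ hα)
  have hev1 : ∀ᶠ n : ℕ in atTop, hM (γ n) / (d : ℝ) ^ n < 1 := hlim.eventually_lt_const hL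
  have hev2 : ∀ᶠ n : ℕ in atTop, A ≤ (d : ℝ) ^ n :=
    (tendsto_pow_atTop_atTop_of_one_lt (by linarith : (1 : ℝ) < d)).eventually_ge_atTop A
  obtain ⟨n, hn1, hn2⟩ := (hev1.and hev2).exists
  have hdn : (0 : ℝ) < (d : ℝ) ^ n := by positivity
  rw [div_lt_one hdn] at hn1
  have h3 := iterate_lower P Q d (max C 0) hd2 (le_max_right _ _) hC' (α, 1) n
  rw [absLogHeight_pair ((lift P Q d)^[n] (α, 1)).1] at h3
  have h4 := hA (γ n) (hγdeg n)
  have h5 : (D' : ℝ) * hM (γ n) ≤ D' * (d : ℝ) ^ n :=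
    mul_le_mul_of_nonneg_left hn1.le (Nat.cast_nonneg _)
  have h6 : (d : ℝ) ^ n * absLogHeight ![α, 1] ≤ (d : ℝ) ^ n * (max C 0 + 1 + D') := by
    have : max C 0 * ((d : ℝ) ^ n - 1) ≤ max C 0 * (d : ℝ) ^ n := by
      have := le_max_right C 0
      nlinarith
    calc (d : ℝ) ^ n * absLogHeight ![α, 1] ≤ max C 0 * ((d : ℝ) ^ n - 1) +
          absLogHeight ![1, γ n] := h3
      _ ≤ max C 0 * (d : ℝ) ^ n + ((d : ℝ) ^ n + D' * (d : ℝ) ^ n) := by linarith
      _ = _ := by ring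
  have h7 := le_of_mul_le_mul_left h6 hdn
  have h8 : absLogHeight ![1, α] = absLogHeight ![α, 1] := by
    have := absLogHeight_pair α 1
    rw [div_one] at this
    exact this.symm
  rw [h8]
  refine h7.trans ?_
  have h9 : max C 0 + 1 ≤ (max (finrank ℚ N) ⌈max C 0 + 1⌉₊ : ℕ) := by
    refine (Nat.le_ceil _).trans ?_
    exact_mod_cast le_max_right _ _
  have h10 : (D' : ℝ) ≤ (max (finrank ℚ N) ⌈max C 0 + 1⌉₊ : ℕ) * D := by
    rw [hD']
    have : finrank ℚ N * D ≤ max (finrank ℚ N) ⌈max C 0 + 1⌉₊ * D :=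
      Nat.mul_le_mul_right _ (le_max_left _ _)
    exact_mod_cast this
  linarith

end Pool.Agent.H58W
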